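import Mathlib

/-! Short multiplication chains: fewer than `2 log₂ |G|` multiplications suffice for abelian groups
and, more generally, for generating sets containing a polycyclic generating sequence. -/

set_option autoImplicit false

namespace Pool.Agent.Results.MP_d72c68_al.Polycyclic

/-- Multiplication chains from `X`, newest element first: each entry is a product `a * b` with
`a`, `b` in `X` or among the earlier entries. -/
inductive IsChain {G : Type} [Group G] (X : Set G) : List G → Prop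
  | nil : IsChain X []
  | cons (a b : G) (L : List G) : IsChain X L → (a ∈ X ∨ a ∈ L) → (b ∈ X ∨ b ∈ L) →
      IsChain X ((a * b) :: L)

variable {G : Type} [Group G] {X : Set G}

def Reach (X : Set G) (g : G) (m : ℕ) : Prop :=
  ∃ L, IsChain X L ∧ L.length = m ∧ (g ∈ X ∨ g ∈ L)

theorem IsChain.append {L M : List G} (hL : IsChain X L) (hM : IsChain X M) :
    IsChain X (L ++ M) := by
  induction hL with
  | nil => exact hM
  | cons a b L _ ha hb ih =>
    exact IsChain.cons a b _ ih (ha.imp_right fun h => List.mem_append_left _ h)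
      (hb.imp_right fun h => List.mem_append_left _ h)

theorem Reach.mul {a b : G} {m n : ℕ} (ha : Reach X a m) (hb : Reach X b n) :
    Reach X (a * b) (m + n + 1) := by
  obtain ⟨L, hL, rfl, ha⟩ := ha
  obtain ⟨M, hM, rfl, hb⟩ := hb
  exact ⟨(a * b) :: (L ++ M), IsChain.cons a b _ (hL.append hM)
    (ha.imp_right fun h => List.mem_append_left _ h)
    (hb.imp_right fun h => List.mem_append_right _ h), by simp, Or.inr (by simp)⟩

theorem Reach.sq {a : G} {m : ℕ} (ha : Reach X a m) : Reach X (a * a) (m + 1) := by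
  obtain ⟨L, hL, rfl, ha⟩ := ha
  exact ⟨(a * a) :: L, IsChain.cons a a _ hL ha ha, by simp, Or.inr (by simp)⟩

theorem Reach.gen {x : G} (hx : x ∈ X) : Reach X x 0 := ⟨[], IsChain.nil, rfl, Or.inl hx⟩

theorem reach_pow {x : G} (hx : x ∈ X) (a : ℕ) (ha : 1 ≤ a) :
    ∃ c, Reach X (x ^ a) c ∧ 2 ^ (c + 1) < (a + 1) ^ 2 := by
  induction a using Nat.strong_induction_on with
  | _ a ih =>
    by_cases h1 : a = 1
    · subst h1; exact ⟨0, by simpa using Reach.gen hx, by norm_num⟩
    obtain ⟨b, hb | hb⟩ := Nat.even_or_odd' a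
    · obtain ⟨c, hc, hc2⟩ := ih b (by omega) (by omega)
      refine ⟨c + 1, by rw [hb, two_mul, pow_add]; exact hc.sq, ?_⟩
      have : 1 ≤ b := by omega
      rw [pow_succ 2 (c + 1), hb]; nlinarith
    · obtain ⟨c, hc, hc2⟩ := ih b (by omega) (by omega)
      refine ⟨c + 1 + 0 + 1, by
        rw [hb, pow_succ, two_mul, pow_add]; exact hc.sq.mul (Reach.gen hx), ?_⟩
      rw [show c + 1 + 0 + 1 + 1 = (c + 1) + 2 by ring, pow_add, hb]; nlinarith

theorem step [Finite G] (H K : Subgroup G) (x : G) (hx : x ∈ Subgroup.normalizer (H : Set G))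
    (hK : K = H ⊔ Subgroup.zpowers x) (g : G) (hg : g ∈ K) :
    ∃ h ∈ H, ∃ a : ℕ, g = h * x ^ a ∧ (a + 1) * Nat.card H ≤ Nat.card K := by
  classical
  have hex : ∃ n, 0 < n ∧ x ^ n ∈ H := ⟨orderOf x, orderOf_pos x, by simp⟩
  set n := Nat.find hex with hn
  obtain ⟨hn0, hnH⟩ : 0 < n ∧ x ^ n ∈ H := Nat.find_spec hex
  have hxK : x ∈ K := by rw [hK]; exact Subgroup.mem_sup_right (Subgroup.mem_zpowers x)
  have hHK : H ≤ K := by rw [hK]; exact le_sup_left
  have hcard : n * Nat.card H ≤ Nat.card K := by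
    let f : Fin n × H → K := fun p => ⟨p.2 * x ^ (p.1 : ℕ), K.mul_mem (hHK p.2.2) (K.pow_mem hxK _)⟩
    have aux : ∀ (i j : ℕ) (h h' : G), h ∈ H → h' ∈ H → i < j → j < n →
        h * x ^ i = h' * x ^ j → False := by
      intro i j h h' hh hh' hij hj e
      refine Nat.find_min hex (m := j - i) (by omega) ⟨by omega, ?_⟩
      have : x ^ (j - i) = h'⁻¹ * h := by
        obtain ⟨t, rfl⟩ := Nat.exists_eq_add_of_le' hij.le
        rw [Nat.add_sub_cancel]
        rw [pow_add, ← mul_assoc] at e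
        rw [mul_right_cancel e]; group
      rw [this]; exact H.mul_mem (H.inv_mem hh') hh
    have hf : Function.Injective f := by
      rintro ⟨i, h⟩ ⟨j, h'⟩ e
      have e' : (h : G) * x ^ (i : ℕ) = h' * x ^ (j : ℕ) := congrArg Subtype.val e
      have hij : i = j := by
        rcases lt_trichotomy (i : ℕ) j with l | l | l
        · exact (aux i j h h' h.2 h'.2 l j.2 e').elim
        · exact Fin.ext l
        · exact (aux j i h' h h'.2 h.2 l i.2 e'.symm).elim
      subst hij
      rw [Subtype.ext (mul_right_cancel e')]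
    simpa using Nat.card_le_card_of_injective f hf
  let W : Subgroup G :=
    { carrier := {g | ∃ h ∈ H, ∃ z : ℤ, g = h * x ^ z}
      one_mem' := ⟨1, H.one_mem, 0, by simp⟩
      mul_mem' := by
        rintro _ _ ⟨h, hh, z, rfl⟩ ⟨h', hh', z', rfl⟩
        refine ⟨h * (x ^ z * h' * (x ^ z)⁻¹), H.mul_mem hh
          ((Subgroup.mem_normalizer_iff.1 (Subgroup.zpow_mem _ hx z) h').1 hh'), z + z', ?_⟩
        group
      inv_mem' := by
        rintro _ ⟨h, hh, z, rfl⟩
        refine ⟨x ^ (-z) * h⁻¹ * (x ^ (-z))⁻¹,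
          (Subgroup.mem_normalizer_iff.1 (Subgroup.zpow_mem _ hx (-z)) h⁻¹).1 (H.inv_mem hh),
          -z, ?_⟩
        group }
  have hW : K ≤ W := by
    rw [hK]
    refine sup_le (fun h hh => ⟨h, hh, 0, by simp⟩) ?_
    rintro _ ⟨z, rfl⟩
    exact ⟨1, H.one_mem, z, by simp⟩
  obtain ⟨h, hh, z, rfl⟩ := hW hg
  have hn' : (0 : ℤ) < n := by exact_mod_cast hn0
  obtain ⟨r, hr⟩ := Int.eq_ofNat_of_zero_le (Int.emod_nonneg z hn'.ne')
  have hrn : r < n := by have := Int.emod_lt_of_pos z hn'; omega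
  refine ⟨h * (x ^ n) ^ (z / n), H.mul_mem hh (H.zpow_mem hnH _), r, ?_,
    (Nat.mul_le_mul_right _ hrn).trans hcard⟩
  rw [mul_assoc, ← zpow_natCast, ← zpow_natCast, ← zpow_mul, ← zpow_add, ← hr,
    Int.mul_ediv_add_emod]

theorem main [Finite G] (x : ℕ → G) (k : ℕ) (hX : ∀ i < k, x i ∈ X)
    (hn : ∀ i < k, x i ∈ Subgroup.normalizer (Subgroup.closure (x '' Set.Iio i) : Set G))
    (g : G) (hg : g ∈ Subgroup.closure (x '' Set.Iio k)) :
    g = 1 ∨ ∃ m, Reach X g m ∧ 2 ^ (m + 1) ≤ Nat.card (Subgroup.closure (x '' Set.Iio k)) ^ 2 := by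
  induction k generalizing g with
  | zero => left; simpa using hg
  | succ k ih =>
    have hK : Subgroup.closure (x '' Set.Iio (k + 1)) =
        Subgroup.closure (x '' Set.Iio k) ⊔ Subgroup.zpowers (x k) := by
      rw [Subgroup.zpowers_eq_closure, ← Subgroup.closure_union, ← Set.image_singleton,
        ← Set.image_union]
      congr 2
      ext i; simp
    obtain ⟨h, hh, a, rfl, hc⟩ := step _ _ (x k) (hn k (by omega)) hK g hg
    have hpos : 1 ≤ Nat.card (Subgroup.closure (x '' Set.Iio k)) := Nat.card_pos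
    have ih' := ih (fun i hi => hX i (by omega)) (fun i hi => hn i (by omega)) h hh
    set A := Nat.card (Subgroup.closure (x '' Set.Iio k))
    set B := Nat.card (Subgroup.closure (x '' Set.Iio (k + 1)))
    have hc2 : ((a + 1) * A) ^ 2 ≤ B ^ 2 := Nat.pow_le_pow_left hc 2
    rw [mul_pow] at hc2
    by_cases ha : a = 0
    · subst ha
      rcases ih' with rfl | ⟨m, hm, hm2⟩
      · left; simp
      · right; exact ⟨m, by simpa using hm, hm2.trans (by simpa using hc2)⟩
    obtain ⟨c, hc3, hc4⟩ := reach_pow (hX k (by omega)) a (by omega)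
    right
    rcases ih' with rfl | ⟨m, hm, hm2⟩
    · refine ⟨c, by simpa using hc3, hc4.le.trans (le_trans ?_ hc2)⟩
      exact Nat.le_mul_of_pos_right _ (by positivity)
    · refine ⟨m + c + 1, hm.mul hc3, le_trans ?_ hc2⟩
      rw [show m + c + 1 + 1 = (c + 1) + (m + 1) by ring, pow_add]
      exact Nat.mul_le_mul hc4.le hm2

/-- Let `G` be a nontrivial finite group generated by `X`. Suppose `G` is abelian, or `X` contains
`x₀, …, x_{k-1}` generating `G` with each `xᵢ` normalizing `⟨x₀, …, x_{i-1}⟩`. Then every `g` is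
obtained from `X` with fewer than `2 log₂ |G|` multiplications. -/
theorem result (G : Type) [Group G] [Finite G] [Nontrivial G] (X : Set G)
    (hX : Subgroup.closure X = ⊤)
    (h : (∀ a b : G, a * b = b * a) ∨ ∃ (k : ℕ) (x : ℕ → G), (∀ i < k, x i ∈ X) ∧
      (∀ i < k, x i ∈ Subgroup.normalizer (Subgroup.closure (x '' Set.Iio i) : Set G)) ∧
      Subgroup.closure (x '' Set.Iio k) = ⊤) (g : G) :
    ∃ L : List G, IsChain X L ∧ (L.length : ℝ) < 2 * Real.logb 2 (Nat.card G) ∧
      (g ∈ X ∨ g ∈ L) := by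
  have hN : 1 < Nat.card G := Finite.one_lt_card
  obtain ⟨k, x, h1, h2, h3⟩ : ∃ (k : ℕ) (x : ℕ → G), (∀ i < k, x i ∈ X) ∧
      (∀ i < k, x i ∈ Subgroup.normalizer (Subgroup.closure (x '' Set.Iio i) : Set G)) ∧
      Subgroup.closure (x '' Set.Iio k) = ⊤ := by
    rcases h with h | h
    · let l := (Set.toFinite X).toFinset.toList
      have hl : ∀ y, y ∈ l ↔ y ∈ X := by intro y; simp [l]
      refine ⟨l.length, fun i => l.getD i 1, ?_, ?_, ?_⟩
      · intro i hi
        show l.getD i 1 ∈ X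
        rw [List.getD_eq_getElem _ _ hi]
        exact (hl _).1 (List.getElem_mem hi)
      · intro i _
        rw [Subgroup.mem_normalizer_iff]
        intro y
        rw [h _ y, mul_inv_cancel_right]
      · rw [eq_top_iff, ← hX]
        apply Subgroup.closure_mono
        intro y hy
        obtain ⟨i, hi, rfl⟩ := List.getElem_of_mem ((hl y).2 hy)
        exact ⟨i, hi, List.getD_eq_getElem _ _ hi⟩
    · exact h
  have key : ∃ m, Reach X g m ∧ 2 ^ m < Nat.card G ^ 2 := by
    rcases main x k h1 h2 g (by rw [h3]; trivial) with rfl | ⟨m, hm, hm2⟩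
    · obtain ⟨y, hy⟩ : X.Nonempty := by
        by_contra hne
        rw [Set.not_nonempty_iff_eq_empty.1 hne, Subgroup.closure_empty] at hX
        exact bot_ne_top hX
      by_cases h4 : orderOf y = 1
      · exact ⟨0, by rw [← orderOf_eq_one_iff.1 h4]; exact Reach.gen hy, by nlinarith⟩
      · have h5 := orderOf_pos y
        obtain ⟨c, hc, hc2⟩ := reach_pow hy (orderOf y - 1) (by omega)
        have h6 : orderOf y - 1 + 1 = orderOf y := by omega
        refine ⟨c + 0 + 1, ?_, ?_⟩
        · have := hc.mul (Reach.gen hy)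
          rwa [← pow_succ, h6, pow_orderOf_eq_one] at this
        · rw [h6] at hc2
          exact hc2.trans_le (Nat.pow_le_pow_left orderOf_le_card 2)
    · rw [h3, Subgroup.card_top] at hm2
      exact ⟨m, hm, lt_of_lt_of_le (Nat.pow_lt_pow_right (by norm_num) (by omega)) hm2⟩
  obtain ⟨m, ⟨L, hL, rfl, hg⟩, hm⟩ := key
  refine ⟨L, hL, ?_, hg⟩
  have h7 : (2 : ℝ) * Real.logb 2 (Nat.card G) = Real.logb 2 ((Nat.card G : ℝ) ^ 2) := by
    rw [Real.logb_pow]; norm_num
  rw [h7, Real.lt_logb_iff_rpow_lt (by norm_num) (by positivity), Real.rpow_natCast]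
  exact_mod_cast hm

end Pool.Agent.Results.MP_d72c68_al.Polycyclic
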